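import Mathlib

/-! Functions which are approximately affine in each direction of a basis are approximately polynomials whose degree
is at most the number of variables (39c sect. 2: a leaf over a flat base has degree at most `m`). -/

set_option autoImplicit false

namespace Pool.Agent.Helper51.QS

open Finset MvPolynomial

noncomputable section

/-- weight of the vertex `e` of the unit cube at the point `s` -/
def vw {N : ℕ} (s : Fin N → ℝ) (e : Fin N → Bool) : ℝ := ∏ i, (bif e i then s i else 1 - s i)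

/-- the vertex -/
def vx {N : ℕ} (e : Fin N → Bool) : Fin N → ℝ := fun i => bif e i then 1 else 0

/-- multilinear interpolation -/
def mli {N : ℕ} (G : (Fin N → ℝ) → ℝ) (s : Fin N → ℝ) : ℝ := ∑ e : Fin N → Bool, vw s e * G (vx e)

theorem vx_cons {N : ℕ} (b : Bool) (e : Fin N → Bool) :
    vx (Fin.cons b e : Fin (N + 1) → Bool) = Fin.cons (bif b then 1 else 0) (vx e) := by
  funext i
  refine Fin.cases ?_ (fun j => ?_) i
  · simp [vx]
  · simp [vx]

theorem vw_cons {N : ℕ} (s : Fin (N + 1) → ℝ) (b : Bool) (e : Fin N → Bool) :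
    vw s (Fin.cons b e : Fin (N + 1) → Bool) = (bif b then s 0 else 1 - s 0) * vw (Fin.tail s) e := by
  unfold vw
  rw [Fin.prod_univ_succ]
  simp only [Fin.cons_zero, Fin.cons_succ]
  rfl

theorem sum_cons {N : ℕ} (f : (Fin (N + 1) → Bool) → ℝ) :
    ∑ e, f e = ∑ e : Fin N → Bool, f (Fin.cons true e) + ∑ e : Fin N → Bool, f (Fin.cons false e) := by
  rw [← (Fin.consEquiv (fun _ : Fin (N + 1) => Bool)).sum_comp, Fintype.sum_prod_type]
  rw [Fintype.sum_bool]
  rfl

theorem mli_cons {N : ℕ} (G : (Fin (N + 1) → ℝ) → ℝ) (s : Fin (N + 1) → ℝ) :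
    mli G s = s 0 * mli (fun u => G (Fin.cons 1 u)) (Fin.tail s) +
      (1 - s 0) * mli (fun u => G (Fin.cons 0 u)) (Fin.tail s) := by
  unfold mli
  rw [sum_cons, Finset.mul_sum, Finset.mul_sum]
  congr 1
  · apply Finset.sum_congr rfl
    intro e _
    rw [vw_cons, vx_cons]
    simp only [cond_true]
    ring
  · apply Finset.sum_congr rfl
    intro e _
    rw [vw_cons, vx_cons]
    simp only [cond_false]
    ring

/-- error of the multilinear interpolation -/
theorem mli_err (N : ℕ) (G : (Fin N → ℝ) → ℝ) (η : ℝ)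
    (h : ∀ s : Fin N → ℝ, (∀ i, 0 ≤ s i ∧ s i ≤ 1) → ∀ i,
      |G s - ((1 - s i) * G (Function.update s i 0) + s i * G (Function.update s i 1))| ≤ η)
    (s : Fin N → ℝ) (hs : ∀ i, 0 ≤ s i ∧ s i ≤ 1) : |G s - mli G s| ≤ N * η := by
  induction N with
  | zero =>
    have e1 : mli G s = G s := by
      unfold mli
      rw [Fintype.sum_unique]
      have e2 : ∀ e : Fin 0 → Bool, vx e = s := fun e => Subsingleton.elim _ _
      simp [vw, e2]
    rw [e1]
    simp
  | succ N ih =>
    have hb : ∀ b : ℝ, 0 ≤ b → b ≤ 1 → |G (Fin.cons b (Fin.tail s)) - mli (fun u => G (Fin.cons b u)) (Fin.tail s)| ≤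
        N * η := by
      intro b h0 h1
      refine ih (fun u => G (Fin.cons b u)) ?_ (Fin.tail s) (fun i => hs i.succ)
      intro u hu i
      have := h (Fin.cons b u) (fun j => by
        refine Fin.cases ?_ (fun j' => ?_) j
        · exact ⟨h0, h1⟩
        · exact hu j') i.succ
      rw [Fin.cons_succ, ← Fin.cons_update, ← Fin.cons_update] at this
      exact this
    have h0 := h s hs 0
    have e1 : Function.update s 0 0 = Fin.cons 0 (Fin.tail s) := by
      conv_lhs => rw [← Fin.cons_self_tail s]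
      rw [Fin.update_cons_zero]
    have e2 : Function.update s 0 1 = Fin.cons 1 (Fin.tail s) := by
      conv_lhs => rw [← Fin.cons_self_tail s]
      rw [Fin.update_cons_zero]
    rw [e1, e2] at h0
    have h1 := hb 0 le_rfl zero_le_one
    have h2 := hb 1 zero_le_one le_rfl
    rw [mli_cons]
    have hs0 := hs 0
    set a := G (Fin.cons 0 (Fin.tail s))
    set b := G (Fin.cons 1 (Fin.tail s))
    set a' := mli (fun u => G (Fin.cons 0 u)) (Fin.tail s)
    set b' := mli (fun u => G (Fin.cons 1 u)) (Fin.tail s)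
    have e3 : G s - (s 0 * b' + (1 - s 0) * a') = (G s - ((1 - s 0) * a + s 0 * b)) +
        ((1 - s 0) * (a - a') + s 0 * (b - b')) := by ring
    rw [e3]
    have h3 : |(1 - s 0) * (a - a') + s 0 * (b - b')| ≤ N * η := by
      calc |(1 - s 0) * (a - a') + s 0 * (b - b')| ≤ |(1 - s 0) * (a - a')| + |s 0 * (b - b')| := abs_add_le _ _
        _ = (1 - s 0) * |a - a'| + s 0 * |b - b'| := by
            rw [abs_mul, abs_mul, abs_of_nonneg (show 0 ≤ 1 - s 0 by linarith [hs0.2]), abs_of_nonneg hs0.1]
        _ ≤ (1 - s 0) * (N * η) + s 0 * (N * η) :=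
            add_le_add (mul_le_mul_of_nonneg_left h1 (by linarith [hs0.2])) (mul_le_mul_of_nonneg_left h2 hs0.1)
        _ = N * η := by ring
    refine (abs_add_le _ _).trans ?_
    push_cast
    linarith

/-- the weights are nonnegative with sum one -/
theorem vw_sum {N : ℕ} (s : Fin N → ℝ) : ∑ e, vw s e = 1 := by
  have h := (mli_err N (fun _ => 1) 0 (fun s _ i => by simp) )
  induction N with
  | zero =>
    rw [Fintype.sum_unique]
    simp [vw]
  | succ N ih =>
    rw [sum_cons]
    have e1 : ∀ b : Bool, ∑ e : Fin N → Bool, vw s (Fin.cons b e : Fin (N + 1) → Bool) = (bif b then s 0 else 1 - s 0) := by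
      intro b
      rw [Finset.sum_congr rfl (fun e _ => vw_cons s b e), ← Finset.mul_sum,
        ih (Fin.tail s) (mli_err N (fun _ => 1) 0 (fun s _ i => by simp)), mul_one]
    rw [e1, e1]
    simp

theorem vw_nonneg {N : ℕ} (s : Fin N → ℝ) (hs : ∀ i, 0 ≤ s i ∧ s i ≤ 1) (e : Fin N → Bool) : 0 ≤ vw s e := by
  unfold vw
  apply Finset.prod_nonneg
  intro i _
  cases e i
  · simp only [cond_false]; linarith [(hs i).2]
  · exact (hs i).1

/-- products of `N` affine polynomials -/
theorem tdeg_prod {N M : ℕ} (l : Fin N → MvPolynomial (Fin M) ℝ) (hl : ∀ i, (l i).totalDegree ≤ 1) :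
    (∏ i, l i).totalDegree ≤ N := by
  refine (MvPolynomial.totalDegree_finsetProd _ _).trans ?_
  refine (Finset.sum_le_sum (fun i _ => hl i)).trans ?_
  simp

/-- the interpolating polynomial in the coordinates given by the affine polynomials `l` -/
def mlp {N M : ℕ} (c : (Fin N → Bool) → ℝ) (l : Fin N → MvPolynomial (Fin M) ℝ) : MvPolynomial (Fin M) ℝ :=
  ∑ e : Fin N → Bool, C (c e) * ∏ i, (bif e i then l i else 1 - l i)

theorem mlp_tdeg {N M : ℕ} (c : (Fin N → Bool) → ℝ) (l : Fin N → MvPolynomial (Fin M) ℝ)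
    (hl : ∀ i, (l i).totalDegree ≤ 1) : (mlp c l).totalDegree ≤ N := by
  unfold mlp
  refine (MvPolynomial.totalDegree_finsetSum _ _).trans ?_
  apply Finset.sup_le
  intro e _
  refine (MvPolynomial.totalDegree_mul _ _).trans ?_
  rw [MvPolynomial.totalDegree_C, zero_add]
  apply tdeg_prod
  intro i
  cases e i
  · simp only [cond_false]
    refine (MvPolynomial.totalDegree_sub _ _).trans ?_
    rw [MvPolynomial.totalDegree_one]
    exact max_le (by omega) (hl i)
  · exact hl i

theorem mlp_eval {N M : ℕ} (c : (Fin N → Bool) → ℝ) (l : Fin N → MvPolynomial (Fin M) ℝ) (x : Fin M → ℝ) :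
    eval x (mlp c l) = ∑ e : Fin N → Bool, vw (fun i => eval x (l i)) e * c e := by
  unfold mlp vw
  rw [map_sum]
  apply Finset.sum_congr rfl
  intro e _
  rw [map_mul, eval_C, map_prod, mul_comm]
  congr 1
  apply Finset.prod_congr rfl
  intro i _
  cases e i
  · simp only [cond_false, map_sub, map_one]
  · rfl

/-- AFFINE IN EVERY DIRECTION OF A BASIS. `W` is a left inverse of the matrix with the columns `v i`. -/
theorem aff_basis {N M : ℕ} (F : (Fin M → ℝ) → ℝ) (p : Fin M → ℝ) (v : Fin N → Fin M → ℝ)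
    (W : Fin N → Fin M → ℝ) (hW : ∀ i j, ∑ k, W i k * v j k = if i = j then 1 else 0) (η : ℝ)
    (h : ∀ s : Fin N → ℝ, (∀ i, 0 ≤ s i ∧ s i ≤ 1) → ∀ i,
      |F (fun k => p k + ∑ j, s j * v j k) -
        ((1 - s i) * F (fun k => p k + ∑ j, (Function.update s i 0) j * v j k) +
          s i * F (fun k => p k + ∑ j, (Function.update s i 1) j * v j k))| ≤ η) :
    ∃ Q : MvPolynomial (Fin M) ℝ, Q.totalDegree ≤ N ∧
      ∀ s : Fin N → ℝ, (∀ i, 0 ≤ s i ∧ s i ≤ 1) →
        |F (fun k => p k + ∑ j, s j * v j k) - eval (fun k => p k + ∑ j, s j * v j k) Q| ≤ N * η := by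
  set G : (Fin N → ℝ) → ℝ := fun s => F (fun k => p k + ∑ j, s j * v j k) with hG
  set l : Fin N → MvPolynomial (Fin M) ℝ := fun i => ∑ k, C (W i k) * (X k - C (p k)) with hl
  refine ⟨mlp (fun e => G (vx e)) l, mlp_tdeg _ _ (fun i => ?_), fun s hs => ?_⟩
  · rw [hl]
    refine (MvPolynomial.totalDegree_finsetSum _ _).trans ?_
    apply Finset.sup_le
    intro k _
    refine (MvPolynomial.totalDegree_mul _ _).trans ?_
    rw [MvPolynomial.totalDegree_C, zero_add]
    refine (MvPolynomial.totalDegree_sub _ _).trans ?_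
    rw [MvPolynomial.totalDegree_C]
    exact max_le (MvPolynomial.totalDegree_X k).le (by omega)
  · rw [mlp_eval]
    have e1 : ∀ i, eval (fun k => p k + ∑ j, s j * v j k) (l i) = s i := by
      intro i
      rw [hl]
      simp only [map_sum, map_mul, map_sub, eval_C, eval_X, add_sub_cancel_left]
      have : ∀ k, W i k * ∑ j, s j * v j k = ∑ j, s j * (W i k * v j k) := by
        intro k
        rw [Finset.mul_sum]
        apply Finset.sum_congr rfl
        intro j _
        ring
      rw [Finset.sum_congr rfl (fun k _ => this k), Finset.sum_comm]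
      have e2 : ∀ j, ∑ k, s j * (W i k * v j k) = if i = j then s j else 0 := by
        intro j
        rw [← Finset.mul_sum, hW]
        split <;> simp
      rw [Finset.sum_congr rfl (fun j _ => e2 j)]
      simp
    have e3 : (fun i => eval (fun k => p k + ∑ j, s j * v j k) (l i)) = s := funext e1
    rw [e3]
    exact mli_err N G η h s hs

end

end Pool.Agent.Helper51.QS
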